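import Pool.Agent.MWGI.StmtsN

/-! Row NWD of squad MWGI (MP_23468a_al): the label. -/

set_option autoImplicit false

namespace Pool.Agent.MWGI.H75

open Pool.Agent.Helper14_MV Pool.Agent.Helper2_MV Pool.Agent.MVO Pool.Agent.MWL Pool.Agent.MWS
  Pool.Agent.MWH

theorem xadd (i j : ℕ) : X i ++ X j = X (i + j) := by
  show List.replicate i 0 ++ List.replicate j 0 = List.replicate (i + j) 0
  rw [List.replicate_add]

theorem blkOk_wz (n k i p : ℕ) (Z : ℕ → Bool) (u v : ℕ) : BlkOk k (wz n i p Z u v) := by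
  intro j _ c hc
  have h : c = 0 ∨ c = 1 := by
    unfold wz at hc
    split at hc
    · rw [List.mem_append, List.mem_cons] at hc
      rcases hc with hc | hc | hc
      · exact Or.inl (List.eq_of_mem_replicate hc)
      · exact Or.inr hc
      · exact Or.inl (List.eq_of_mem_replicate hc)
    · split at hc
      · exact Or.inr (List.mem_singleton.1 hc)
      · split at hc
        · exact Or.inl (List.eq_of_mem_replicate hc)
        · simp at hc
  unfold NS
  omega

/-- insertion of powers of `0` at both ends of block `i` -/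
theorem wins {n k i p : ℕ} {θ : FIC} {Z : ℕ → Bool} {u v u' v' : ℕ} (s t : ℕ)
    (h : Wz n k i p Z u v u' v' (RR θ)) : Wz n k i p Z (s + u) (v + t) (s + u') (v' + t) (RR θ) := by
  have h1 := rr_ins' θ (fun j => if j = i then X s else []) (fun j => if j = i then X t else [])
    (blkOk_wz n k i p Z u v) (blkOk_wz n k i p Z u' v') h
  have e : ∀ u v : ℕ, asm k (fun j => (if j = i then X s else []) ++ wz n i p Z u v j ++
      (if j = i then X t else [])) = asm k (wz n i p Z (s + u) (v + t)) := by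
    intro u v
    apply asm_congr
    intro j _
    by_cases hj : j = i
    · unfold wz
      rw [if_pos hj, if_pos hj, if_pos hj, if_pos hj, ← xadd s u, ← xadd v t]
      simp only [List.append_assoc, List.cons_append]
    · unfold wz
      rw [if_neg hj, if_neg hj, if_neg hj, if_neg hj]
      simp
  rw [e, e] at h1
  exact h1

/-- ROW NWD -/
theorem nwd (hwex : WexStmt) : NwdStmt := by
  intro n k i p θ Z hB hi hp hip u v u' v' huv h
  have hn := hB.pos
  have h1 := wins (2 * n + (n - 1) * u') (2 * n + (n - 1) * v) h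
  have e1 : 2 * n + (n - 1) * u' + u' = 2 * n + n * u' := by
    obtain ⟨n0, rfl⟩ : ∃ n0, n = n0 + 1 := ⟨n - 1, by omega⟩
    rw [Nat.add_sub_cancel]
    ring
  have e2 : v + (2 * n + (n - 1) * v) = 2 * n + n * v := by
    obtain ⟨n0, rfl⟩ : ∃ n0, n = n0 + 1 := ⟨n - 1, by omega⟩
    rw [Nat.add_sub_cancel]
    ring
  have m1 : 2 * n + n * u' ≡ 2 * n [MOD n] := by
    unfold Nat.ModEq
    rw [Nat.add_mul_mod_self_left]
  have m2 : 2 * n ≡ 2 * n + n * v [MOD n] := by
    unfold Nat.ModEq
    rw [Nat.add_mul_mod_self_left]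
  have m3 : v' + (2 * n + (n - 1) * v) ≡ 2 * n + (u + (n - 1) * u') [MOD n] := by
    have h2 : (u + v) + ((n - 1) * v + (n - 1) * u' + 2 * n) ≡
        (u' + v') + ((n - 1) * v + (n - 1) * u' + 2 * n) [MOD n] := huv.add_right _
    have h3 : (u + v) + ((n - 1) * v + (n - 1) * u' + 2 * n) =
        2 * n + (u + (n - 1) * u') + n * v := by
      obtain ⟨n0, rfl⟩ : ∃ n0, n = n0 + 1 := ⟨n - 1, by omega⟩
      rw [Nat.add_sub_cancel]
      ring
    have h4 : (u' + v') + ((n - 1) * v + (n - 1) * u' + 2 * n) =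
        v' + (2 * n + (n - 1) * v) + n * u' := by
      obtain ⟨n0, rfl⟩ : ∃ n0, n = n0 + 1 := ⟨n - 1, by omega⟩
      rw [Nat.add_sub_cancel]
      ring
    rw [h3, h4] at h2
    unfold Nat.ModEq at h2 ⊢
    rw [Nat.add_mul_mod_self_left, Nat.add_mul_mod_self_left] at h2
    exact h2.symm
  rw [e1, e2] at h1
  have e3 : 2 * n + (n - 1) * u' + u = 2 * n + (u + (n - 1) * u') := by ring
  rw [e3] at h1
  have a1 : Wz n k i p Z (2 * n + (u + (n - 1) * u')) (2 * n) (2 * n + (u + (n - 1) * u'))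
      (2 * n + n * v) (RR θ) :=
    hwex n k i p θ Z hB hi hp hip _ _ _ _ rfl m2 (Or.inl rfl) (Or.inr (Or.inl ⟨by omega, by omega⟩))
  have a2 : Wz n k i p Z (2 * n + n * u') (v' + (2 * n + (n - 1) * v)) (2 * n)
      (2 * n + (u + (n - 1) * u')) (RR θ) :=
    hwex n k i p θ Z hB hi hp hip _ _ _ _ m1 m3 (Or.inr (Or.inl ⟨by omega, by omega⟩))
      (Or.inr (Or.inl ⟨by omega, by omega⟩))
  exact θ.trans a1 (θ.trans h1 a2)

end Pool.Agent.MWGI.H75
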